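import Mathlib

/-!
Isomorphic factorisations of complete equipartite graphs: basic definitions, transport, blow-up and
the joining lemma.
-/

namespace Pool.Agent.W2helper95.EQ

open Equiv

/-- The graph with vertex set `V` whose parts are the fibres of `π` has a factorisation into
isomorphic factors indexed by `κ`. -/
def HF {V A : Type} (π : V → A) (κ : Type) : Prop :=
  ∃ c : V → V → κ, (∀ u v, c u v = c v u) ∧
    ∀ i j : κ, ∃ σ : Perm V, ∀ u v,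
      (π u ≠ π v ∧ c u v = i) ↔ (π (σ u) ≠ π (σ v) ∧ c (σ u) (σ v) = j)

theorem HF.congr {V W A B κ μ : Type} {π : V → A} {ρ : W → B} (e : V ≃ W)
    (h : ∀ u v, π u = π v ↔ ρ (e u) = ρ (e v)) (f : κ ≃ μ) (hp : HF π κ) : HF ρ μ := by
  obtain ⟨c, hc, hs⟩ := hp
  have h' : ∀ u v, ρ u = ρ v ↔ π (e.symm u) = π (e.symm v) := by
    intro u v
    rw [h, e.apply_symm_apply, e.apply_symm_apply]
  refine ⟨fun u v => f (c (e.symm u) (e.symm v)), fun u v => congrArg f (hc _ _), ?_⟩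
  intro i j
  obtain ⟨σ, hσ⟩ := hs (f.symm i) (f.symm j)
  refine ⟨(e.symm.trans σ).trans e, fun u v => ?_⟩
  have := hσ (e.symm u) (e.symm v)
  simp only [ne_eq, h', Equiv.trans_apply, Equiv.symm_apply_apply, Equiv.eq_symm_apply] at this ⊢
  exact this

/-- All fibres of `π` have `n` elements. -/
def Eqp {V A : Type} (π : V → A) (n : ℕ) : Prop := ∀ a, Nonempty ({v // π v = a} ≃ Fin n)

theorem Eqp.fst (r n : ℕ) : Eqp (Prod.fst : Fin r × Fin n → Fin r) n := by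
  intro a
  exact ⟨⟨fun v => v.1.2, fun k => ⟨(a, k), rfl⟩, fun v => by
    obtain ⟨⟨x, y⟩, h⟩ := v
    simp at h
    subst h
    rfl, fun k => rfl⟩⟩

theorem Eqp.sum {V₁ V₂ A₁ A₂ : Type} {π₁ : V₁ → A₁} {π₂ : V₂ → A₂} {n : ℕ} (h₁ : Eqp π₁ n)
    (h₂ : Eqp π₂ n) : Eqp (Sum.map π₁ π₂) n := by
  rintro (a | a)
  · obtain ⟨e⟩ := h₁ a
    refine ⟨Equiv.trans (Equiv.symm ?_) e⟩
    refine ⟨fun v => ⟨Sum.inl v.1, by simp [v.2]⟩, fun v => match v with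
      | ⟨Sum.inl x, hx⟩ => ⟨x, by simpa using hx⟩
      | ⟨Sum.inr x, hx⟩ => absurd hx (by simp), fun v => rfl, ?_⟩
    rintro ⟨(x | x), hx⟩
    · rfl
    · exact absurd hx (by simp)
  · obtain ⟨e⟩ := h₂ a
    refine ⟨Equiv.trans (Equiv.symm ?_) e⟩
    refine ⟨fun v => ⟨Sum.inr v.1, by simp [v.2]⟩, fun v => match v with
      | ⟨Sum.inr x, hx⟩ => ⟨x, by simpa using hx⟩
      | ⟨Sum.inl x, hx⟩ => absurd hx (by simp), fun v => rfl, ?_⟩
    rintro ⟨(x | x), hx⟩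
    · exact absurd hx (by simp)
    · rfl

/-- Two complete equipartite graphs with the same numbers are isomorphic. -/
theorem Eqp.iso {V W A B : Type} {π : V → A} {ρ : W → B} {n : ℕ} (h₁ : Eqp π n)
    (h₂ : Eqp ρ n) (e : A ≃ B) : ∃ f : V ≃ W, ∀ u v, π u = π v ↔ ρ (f u) = ρ (f v) := by
  have f₁ : ∀ a, {v // π v = a} ≃ Fin n := fun a => (h₁ a).some
  have f₂ : ∀ a, {w // ρ w = a} ≃ Fin n := fun a => (h₂ a).some
  let F : ∀ a, {v // e (π v) = a} ≃ {w // ρ w = a} := fun a =>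
    (Equiv.subtypeEquivRight (fun v => by rw [Equiv.eq_symm_apply])).trans
      ((f₁ (e.symm a)).trans (f₂ a).symm)
  have key : ∀ v, ρ (Equiv.ofFiberEquiv (f := fun v => e (π v)) (g := ρ) F v) = e (π v) :=
    fun v => Equiv.ofFiberEquiv_map (f := fun v => e (π v)) (g := ρ) F v
  refine ⟨Equiv.ofFiberEquiv (f := fun v => e (π v)) (g := ρ) F, fun u v => ?_⟩
  rw [key, key]
  simp

theorem HF.model {V W A B κ μ : Type} {π : V → A} {ρ : W → B} {n : ℕ} (h₁ : Eqp π n)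
    (h₂ : Eqp ρ n) (e : A ≃ B) (f : κ ≃ μ) (h : HF π κ) : HF ρ μ := by
  obtain ⟨g, hg⟩ := h₁.iso h₂ e
  exact h.congr g hg f

/-- Blow-up. -/
theorem HF.blowup {V A κ B : Type} {π : V → A} (h : HF π κ) :
    HF (fun v : V × B => π v.1) κ := by
  obtain ⟨c, hc, hs⟩ := h
  refine ⟨fun u v => c u.1 v.1, fun u v => hc _ _, fun i j => ?_⟩
  obtain ⟨σ, hσ⟩ := hs i j
  exact ⟨Equiv.prodCongr σ (Equiv.refl _), fun u v => hσ u.1 v.1⟩

theorem Eqp.blowup {V A : Type} {π : V → A} {n m : ℕ} (h : Eqp π n) :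
    Eqp (fun v : V × Fin m => π v.1) (n * m) := by
  intro a
  obtain ⟨e⟩ := h a
  refine ⟨Equiv.trans ?_ ((Equiv.prodCongr e (Equiv.refl _)).trans finProdFinEquiv)⟩
  exact ⟨fun v => (⟨v.1.1, v.2⟩, v.1.2), fun v => ⟨(v.1.1, v.2), v.1.2⟩, fun v => rfl, fun v => rfl⟩

/-- Join of a factorised graph with a block whose vertices are coloured, too. -/
theorem HF.join {V₁ V₂ A₁ A₂ κ : Type} {π₁ : V₁ → A₁} (π₂ : V₂ → A₂) (h : HF π₁ κ)
    (cV : V₂ → κ) (c₂ : V₂ → V₂ → κ) (hc₂ : ∀ u v, c₂ u v = c₂ v u)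
    (H : ∀ i j : κ, ∃ τ : Perm V₂, (∀ v, cV v = i ↔ cV (τ v) = j) ∧ ∀ u v,
      (π₂ u ≠ π₂ v ∧ c₂ u v = i) ↔ (π₂ (τ u) ≠ π₂ (τ v) ∧ c₂ (τ u) (τ v) = j)) :
    HF (Sum.map π₁ π₂) κ := by
  obtain ⟨c₁, hc₁, hs⟩ := h
  refine ⟨fun u v => match u, v with
    | .inl u, .inl v => c₁ u v
    | .inr u, .inr v => c₂ u v
    | .inl _, .inr v => cV v
    | .inr u, .inl _ => cV u, ?_, ?_⟩
  · rintro (u | u) (v | v)
    · exact hc₁ u v
    · rfl
    · rfl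
    · exact hc₂ u v
  · intro i j
    obtain ⟨σ, hσ⟩ := hs i j
    obtain ⟨τ, hτ, hτ'⟩ := H i j
    refine ⟨Equiv.sumCongr σ τ, ?_⟩
    rintro (u | u) (v | v)
    · simpa using hσ u v
    · simpa using hτ v
    · simpa using hτ u
    · simpa using hτ' u v

end Pool.Agent.W2helper95.EQ
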