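import Pool.Agent.W2helper95.EqBasic

/-!
Isomorphic factorisations of complete equipartite graphs: adding a block of parts which is
factorised cyclically.
-/

namespace Pool.Agent.W2helper95.EQ

open Equiv

theorem val_neg_of_ne {L : ℕ} [NeZero L] {a : ZMod L} (h : a ≠ 0) : (-a).val = L - a.val := by
  rw [ZMod.neg_val, if_neg h]

theorem val_pos_of_ne {L : ℕ} [NeZero L] {a : ZMod L} (h : a ≠ 0) : 0 < a.val := by
  rw [Nat.pos_iff_ne_zero]
  intro h'
  exact h ((ZMod.val_eq_zero a).1 h')

theorem HF.addBlock {V A : Type} {π : V → A} {t b L : ℕ} [NeZero L] (hb : b ∣ L) (ht : t ∣ L)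
    (hst : ∀ x : ZMod L, 2 * x.val = L →
      ZMod.castHom ht (ZMod t) x = 0 ∨ ZMod.castHom hb (ZMod b) x = 0)
    (h : HF π (ZMod t)) : HF (Sum.map π (ZMod.castHom hb (ZMod b))) (ZMod t) := by
  set q : ZMod L →+* ZMod t := ZMod.castHom ht (ZMod t) with hq
  set p : ZMod L →+* ZMod b := ZMod.castHom hb (ZMod b) with hp
  have hsurj : Function.Surjective q := ZMod.ringHom_surjective q
  let c₂ : ZMod L → ZMod L → ZMod t := fun x y =>
    if 2 * (y - x).val < L then q x else if L < 2 * (y - x).val then q y
    else if q x = q y then q x else 0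
  refine h.join p q c₂ ?_ ?_
  · intro x y
    simp only [c₂]
    by_cases hxy : y - x = 0
    · rw [sub_eq_zero] at hxy
      subst hxy
      rfl
    · have h1 : (x - y).val = L - (y - x).val := by
        rw [← neg_sub y x, val_neg_of_ne hxy]
      have h2 := val_pos_of_ne hxy
      have h3 := ZMod.val_lt (y - x)
      rw [h1]
      rcases lt_trichotomy (2 * (y - x).val) L with h4 | h4 | h4
      · rw [if_pos h4, if_neg (by omega), if_pos (by omega)]
      · rw [if_neg (show ¬ (2 * (y - x).val < L) by omega),
          if_neg (show ¬ (L < 2 * (y - x).val) by omega),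
          if_neg (show ¬ (2 * (L - (y - x).val) < L) by omega),
          if_neg (show ¬ (L < 2 * (L - (y - x).val)) by omega)]
        by_cases h5 : q x = q y
        · rw [if_pos h5, if_pos h5.symm, h5]
        · rw [if_neg h5, if_neg (fun h => h5 h.symm)]
      · rw [if_neg (by omega), if_pos h4, if_pos (by omega)]
  · intro i j
    obtain ⟨s, hs⟩ := hsurj (j - i)
    refine ⟨Equiv.addRight s, fun v => ?_, fun u v => ?_⟩
    · rw [Equiv.coe_addRight, map_add, hs]
      constructor
      · rintro rfl
        ring
      · intro h
        linear_combination h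
    · rw [Equiv.coe_addRight]
      have e1 : p u ≠ p v ↔ p (u + s) ≠ p (v + s) := by
        rw [map_add, map_add]
        simp
      rw [← e1]
      refine and_congr_right (fun huv => ?_)
      have e2 : c₂ (u + s) (v + s) = c₂ u v + (j - i) := by
        simp only [c₂, add_sub_add_right_eq_sub, map_add, hs]
        split_ifs with h1 h2 h3 h4 h5
        · rfl
        · rfl
        · rfl
        · exact absurd (add_right_cancel h3) h4
        · exact absurd (by rw [h5]) h3
        · exfalso
          rcases hst (v - u) (by omega) with h6 | h6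
          · rw [map_sub, sub_eq_zero] at h6
            exact h5 h6.symm
          · rw [map_sub, sub_eq_zero] at h6
            exact huv h6.symm
      rw [e2]
      constructor
      · rintro h
        rw [h]
        ring
      · intro h
        linear_combination h

theorem eqp_castHom {b n L : ℕ} [NeZero L] (hL : L = b * n) (hb : b ∣ L) :
    Eqp (ZMod.castHom hb (ZMod b)) n := by
  classical
  have hb0 : b ≠ 0 := by
    rintro rfl
    exact NeZero.ne L (by simpa using hL)
  have : NeZero b := ⟨hb0⟩
  set p : ZMod L →+* ZMod b := ZMod.castHom hb (ZMod b) with hp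
  have hsurj : Function.Surjective p := ZMod.ringHom_surjective p
  have h1 : ∀ a a' : ZMod b, (Finset.univ.filter (fun x => p x = a)).card =
      (Finset.univ.filter (fun x => p x = a')).card := by
    intro a a'
    exact AddMonoidHom.card_fiber_eq_of_mem_range p (by simpa using hsurj a)
      (by simpa using hsurj a')
  have h2 : (Finset.univ : Finset (ZMod L)).card =
      ∑ a : ZMod b, (Finset.univ.filter (fun x => p x = a)).card :=
    Finset.card_eq_sum_card_fiberwise (fun x _ => Finset.mem_univ _)
  intro a
  rw [Finset.sum_congr rfl (fun a' _ => h1 a' a), Finset.sum_const, Finset.card_univ,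
    Finset.card_univ, ZMod.card, ZMod.card, smul_eq_mul] at h2
  have h3 : n = (Finset.univ.filter (fun x => p x = a)).card :=
    Nat.eq_of_mul_eq_mul_left (Nat.pos_of_ne_zero hb0) (hL.symm.trans h2)
  refine ⟨Fintype.equivFinOfCardEq ?_⟩
  rw [Fintype.card_subtype, ← h3]

end Pool.Agent.W2helper95.EQ
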