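import Mathlib

/-!
Equitable proper edge colourings.
-/

namespace Pool.Agent.W2helper95.EQ

open Equiv Finset

variable {V κ : Type}

/-- A proper colouring of the edges of `G`. -/
structure PC (G : SimpleGraph V) (c : V → V → κ) : Prop where
  symm : ∀ u v, c u v = c v u
  inj : ∀ u v w, G.Adj u v → G.Adj u w → c u v = c u w → v = w

open Classical in
/-- The vertices covered by the colour `i`. -/
noncomputable def cov [Fintype V] (G : SimpleGraph V) (c : V → V → κ) (i : κ) : Finset V :=
  univ.filter (fun u => ∃ v, G.Adj u v ∧ c u v = i)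

theorem mem_cov [Fintype V] {G : SimpleGraph V} {c : V → V → κ} {i : κ} {u : V} :
    u ∈ cov G c i ↔ ∃ v, G.Adj u v ∧ c u v = i := by
  simp [cov]

open Classical in
/-- Exchange of two colours on a set of vertices. -/
noncomputable def swp (c : V → V → κ) (i j : κ) (K : Set V) (u v : V) : κ :=
  if u ∈ K ∧ v ∈ K then swap i j (c u v) else c u v

/-- `K` is a union of components of the graph with colours `i` and `j`. -/
def Clo (G : SimpleGraph V) (c : V → V → κ) (i j : κ) (K : Set V) : Prop :=
  ∀ u v, G.Adj u v → (c u v = i ∨ c u v = j) → (u ∈ K ↔ v ∈ K)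

open Classical in
theorem swp_mem {G : SimpleGraph V} {c : V → V → κ} {i j : κ} {K : Set V} (hK : Clo G c i j K)
    {u v : V} (huv : G.Adj u v) (hu : u ∈ K) : swp c i j K u v = swap i j (c u v) := by
  unfold swp
  by_cases hv : v ∈ K
  · rw [if_pos ⟨hu, hv⟩]
  · rw [if_neg (fun h => hv h.2)]
    by_cases h : c u v = i ∨ c u v = j
    · exact absurd ((hK u v huv h).1 hu) hv
    · push Not at h
      rw [swap_apply_of_ne_of_ne h.1 h.2]

theorem swp_not_mem {c : V → V → κ} {i j : κ} {K : Set V}
    {u v : V} (hu : u ∉ K) : swp c i j K u v = c u v := by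
  unfold swp
  rw [if_neg (fun h => hu h.1)]

theorem PC.swp {G : SimpleGraph V} {c : V → V → κ} (h : PC G c) {i j : κ} {K : Set V}
    (hK : Clo G c i j K) : PC G (swp c i j K) := by
  classical
  refine ⟨?_, ?_⟩
  · intro u v
    unfold EQ.swp
    rw [h.symm u v]
    by_cases h' : u ∈ K ∧ v ∈ K
    · rw [if_pos h', if_pos h'.symm]
    · rw [if_neg h', if_neg (fun h => h' h.symm)]
  · intro u v w huv huw hc
    by_cases hu : u ∈ K
    · rw [swp_mem hK huv hu, swp_mem hK huw hu] at hc
      exact h.inj u v w huv huw ((swap i j).injective hc)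
    · rw [swp_not_mem hu, swp_not_mem hu] at hc
      exact h.inj u v w huv huw hc

open Classical in
theorem mem_cov_swp [Fintype V] {G : SimpleGraph V} {c : V → V → κ} {i j : κ} {K : Set V}
    (hK : Clo G c i j K) (k : κ) (u : V) : u ∈ cov G (swp c i j K) k ↔
      (u ∈ K ∧ u ∈ cov G c (swap i j k)) ∨ (u ∉ K ∧ u ∈ cov G c k) := by
  rw [mem_cov, mem_cov, mem_cov]
  by_cases hu : u ∈ K
  · have : (∃ v, G.Adj u v ∧ swp c i j K u v = k) ↔ ∃ v, G.Adj u v ∧ c u v = swap i j k := by
      refine exists_congr (fun v => and_congr_right (fun huv => ?_))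
      rw [swp_mem hK huv hu]
      constructor
      · rintro rfl
        simp
      · intro h
        rw [h]
        simp
    rw [this]
    simp only [hu, true_and, not_true, false_and, or_false]
  · have : (∃ v, G.Adj u v ∧ swp c i j K u v = k) ↔ ∃ v, G.Adj u v ∧ c u v = k := by
      refine exists_congr (fun v => and_congr_right (fun huv => ?_))
      rw [swp_not_mem hu]
    rw [this]
    simp only [hu, not_false_iff, true_and, false_and, false_or]

open Classical in
/-- The number of vertices of `K` covered by `k`. -/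
noncomputable def ci [Fintype V] (G : SimpleGraph V) (c : V → V → κ) (K : Set V) (k : κ) : ℕ :=
  ((cov G c k).filter (· ∈ K)).card

open Classical in
/-- The number of vertices outside `K` covered by `k`. -/
noncomputable def co [Fintype V] (G : SimpleGraph V) (c : V → V → κ) (K : Set V) (k : κ) : ℕ :=
  ((cov G c k).filter (· ∉ K)).card

open Classical in
theorem card_cov_swp [Fintype V] {G : SimpleGraph V} {c : V → V → κ} {i j : κ} {K : Set V}
    (hK : Clo G c i j K) (k : κ) : (cov G (swp c i j K) k).card =
      ci G c K (swap i j k) + co G c K k := by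
  unfold ci co
  rw [← card_union_of_disjoint]
  · congr 1
    ext u
    rw [mem_cov_swp hK, mem_union, mem_filter, mem_filter]
    tauto
  · rw [disjoint_left]
    intro u h1 h2
    exact (mem_filter.1 h2).2 (mem_filter.1 h1).2

open Classical in
theorem card_cov_split [Fintype V] (G : SimpleGraph V) (c : V → V → κ) (K : Set V) (k : κ) :
    (cov G c k).card = ci G c K k + co G c K k :=
  (card_filter_add_card_filter_not _).symm

open Classical in
theorem sum_le_ci [Fintype V] (G : SimpleGraph V) (c : V → V → κ) (K : Set V) [Fintype K] (k : κ) :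
    (∑ u : K, if (u : V) ∈ cov G c k then 1 else 0) ≤ ci G c K k := by
  rw [← card_filter]
  refine card_le_card_of_injOn Subtype.val ?_ Subtype.val_injective.injOn
  intro u hu
  rw [mem_coe, mem_filter] at hu
  rw [mem_coe, mem_filter]
  exact ⟨hu.2, u.2⟩

open Classical in
theorem ci_le_card [Fintype V] (G : SimpleGraph V) (c : V → V → κ) (K : Set V) (k : κ) :
    ci G c K k ≤ Nat.card K := by
  rw [Nat.card_eq_fintype_card, ← Set.toFinset_card]
  refine card_le_card ?_
  intro u hu
  rw [Set.mem_toFinset]
  exact (mem_filter.1 hu).2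

/-- The graph formed by two colours. -/
def two (G : SimpleGraph V) (c : V → V → κ) (hc : ∀ u v, c u v = c v u) (i j : κ) :
    SimpleGraph V where
  Adj u v := G.Adj u v ∧ (c u v = i ∨ c u v = j)
  symm := ⟨fun u v h => ⟨h.1.symm, by rw [hc v u]; exact h.2⟩⟩
  loopless := ⟨fun u h => G.loopless.irrefl u h.1⟩

open Classical in
/-- Two colours with different numbers of covered vertices: there is a component where the
numbers differ by one or two in the same direction. -/
theorem exists_component [Fintype V] {G : SimpleGraph V} {c : V → V → κ} (h : PC G c) {i j : κ}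
    (hij : (cov G c j).card < (cov G c i).card) : ∃ K : Set V, Clo G c i j K ∧
      ci G c K j < ci G c K i ∧ ci G c K i ≤ ci G c K j + 2 := by
  set H := two G c h.symm i j with hH
  have hsum : ∀ k : κ, (cov G c k).card =
      ∑ C : H.ConnectedComponent, ci G c C.supp k := by
    intro k
    have := card_eq_sum_card_fiberwise (s := cov G c k)
      (t := (univ : Finset H.ConnectedComponent)) (f := H.connectedComponentMk)
      (fun v _ => mem_univ _)
    rw [this]
    rfl
  rw [hsum i, hsum j] at hij
  obtain ⟨C, -, hC⟩ := exists_lt_of_sum_lt hij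
  have hK : Clo G c i j C.supp := by
    intro u v huv hc
    rw [SimpleGraph.ConnectedComponent.mem_supp_iff, SimpleGraph.ConnectedComponent.mem_supp_iff]
    have h1 : H.Adj u v := ⟨huv, hc⟩
    rw [SimpleGraph.ConnectedComponent.connectedComponentMk_eq_of_adj h1]
  refine ⟨C.supp, hK, hC, ?_⟩
  -- the bound
  have hconn : (H.induce C.supp).Connected := C.connected_toSimpleGraph
  have h1 := hconn.card_vert_le_card_edgeSet_add_one
  have h2 := (H.induce C.supp).sum_degrees_eq_twice_card_edges
  have h3 : ∀ u : C.supp, (H.induce C.supp).degree u ≤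
      (if (u : V) ∈ cov G c i then 1 else 0) + (if (u : V) ∈ cov G c j then 1 else 0) := by
    intro u
    have h4 : ∀ k : κ, (univ.filter (fun v : C.supp => G.Adj u v ∧ c u v = k)).card ≤
        (if (u : V) ∈ cov G c k then 1 else 0) := by
      intro k
      split_ifs with h5
      · rw [card_le_one]
        intro v hv w hw
        rw [mem_filter] at hv hw
        exact Subtype.ext (h.inj u v w hv.2.1 hw.2.1 (hv.2.2.trans hw.2.2.symm))
      · rw [Nat.le_zero, card_eq_zero, filter_eq_empty_iff]
        intro v _ hv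
        exact h5 (mem_cov.2 ⟨v, hv⟩)
    refine le_trans ?_ (Nat.add_le_add (h4 i) (h4 j))
    refine le_trans (card_le_card ?_) (card_union_le _ _)
    intro v hv
    rw [SimpleGraph.mem_neighborFinset] at hv
    rw [mem_union, mem_filter, mem_filter]
    obtain ⟨h6, h7 | h7⟩ := hv
    · exact Or.inl ⟨mem_univ _, h6, h7⟩
    · exact Or.inr ⟨mem_univ _, h6, h7⟩
  have h6 := ci_le_card G c C.supp i
  have h7 : ∑ u : C.supp, (H.induce C.supp).degree u ≤
      ci G c C.supp i + ci G c C.supp j := by
    refine (sum_le_sum (fun u _ => h3 u)).trans ?_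
    rw [sum_add_distrib]
    exact Nat.add_le_add (sum_le_ci G c C.supp i) (sum_le_ci G c C.supp j)
  have h8 : Nat.card (H.induce C.supp).edgeSet = (H.induce C.supp).edgeFinset.card := by
    rw [Nat.card_eq_fintype_card, SimpleGraph.edgeFinset_card]
  omega

/-- Equitable proper edge colourings. -/
theorem exists_equitable [Fintype V] [Fintype κ] {G : SimpleGraph V} {c₀ : V → V → κ}
    (h₀ : PC G c₀) :
    ∃ c : V → V → κ, PC G c ∧ ∀ i j, (cov G c i).card ≤ (cov G c j).card + 2 := by
  classical
  let P : ℕ → Prop := fun m => ∃ c : V → V → κ, PC G c ∧ ∑ k, (cov G c k).card ^ 2 = m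
  have hP : ∃ m, P m := ⟨_, c₀, h₀, rfl⟩
  obtain ⟨c, hc, hm⟩ := Nat.find_spec hP
  refine ⟨c, hc, fun i j => ?_⟩
  by_contra hij
  push Not at hij
  have hne : i ≠ j := by
    rintro rfl
    omega
  obtain ⟨K, hK, h1, h2⟩ := exists_component hc (i := i) (j := j) (by omega)
  have hmin := Nat.find_min' hP ⟨_, hc.swp hK, rfl⟩
  rw [← hm] at hmin
  refine absurd hmin (not_le.2 ?_)
  have e1 := card_cov_swp hK i
  have e2 := card_cov_swp hK j
  have e3 := card_cov_split G c K i
  have e4 := card_cov_split G c K j
  have e5 : ∀ k, k ≠ i → k ≠ j → (cov G (swp c i j K) k).card = (cov G c k).card := by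
    intro k hki hkj
    rw [card_cov_swp hK k, swap_apply_of_ne_of_ne hki hkj, ← card_cov_split]
  rw [swap_apply_left] at e1
  rw [swap_apply_right] at e2
  rw [← add_sum_erase _ _ (mem_univ i), ← add_sum_erase _ _ (mem_erase.2 ⟨hne.symm, mem_univ j⟩),
    ← add_sum_erase _ (fun k => (cov G c k).card ^ 2) (mem_univ i),
    ← add_sum_erase _ (fun k => (cov G c k).card ^ 2) (mem_erase.2 ⟨hne.symm, mem_univ j⟩)]
  have e6 : ∑ k ∈ (univ.erase i).erase j, (cov G (swp c i j K) k).card ^ 2 =
      ∑ k ∈ (univ.erase i).erase j, (cov G c k).card ^ 2 := by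
    refine sum_congr rfl (fun k hk => ?_)
    rw [mem_erase, mem_erase] at hk
    rw [e5 k hk.2.1 hk.1]
  rw [e6, e1, e2]
  rw [e3, e4] at hij
  rw [e3, e4]
  generalize ∑ k ∈ (univ.erase i).erase j, (cov G c k).card ^ 2 = R
  generalize ci G c K i = x at *
  generalize ci G c K j = y at *
  generalize co G c K i = x' at *
  generalize co G c K j = y' at *
  obtain ⟨s, rfl⟩ : ∃ s, x = y + s := ⟨x - y, by omega⟩
  have hs : s = 1 ∨ s = 2 := by omega
  rcases hs with rfl | rfl <;> nlinarith

end Pool.Agent.W2helper95.EQ
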