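import Pool.Agent.W2helper95.EqStar

/-!
Isomorphic factorisations of complete equipartite graphs: the divisibility theorem.
-/

namespace Pool.Agent.W2helper95.EQ

open Equiv Finset

theorem sum_ne (r n : ℕ) : ∑ u : Fin r × Fin n,
    (univ.filter (fun v : Fin r × Fin n => u.1 ≠ v.1)).card = n ^ 2 * (r * (r - 1)) := by
  have h1 : ∀ u : Fin r × Fin n,
      (univ.filter (fun v : Fin r × Fin n => u.1 ≠ v.1)).card = (r - 1) * n := by
    intro u
    have : (univ.filter (fun v : Fin r × Fin n => u.1 ≠ v.1)) = (univ.erase u.1) ×ˢ univ := by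
      ext v
      simp [eq_comm]
    rw [this, card_product, card_erase_of_mem (mem_univ _), card_univ, card_univ, Fintype.card_fin,
      Fintype.card_fin]
  simp_rw [h1]
  rw [sum_const, card_univ, Fintype.card_prod, Fintype.card_fin, Fintype.card_fin, smul_eq_mul]
  ring

/-- The graph with `r` parts of size `n` has a factorisation into `t` factors. -/
def D (r n t : ℕ) : Prop := HF (Prod.fst : Fin r × Fin n → Fin r) (ZMod t)

theorem D.block {r n t b L : ℕ} [NeZero L] (hbn : L = b * n) (hb : b ∣ L) (ht : t ∣ L)
    (hst : ∀ x : ZMod L, 2 * x.val = L →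
      ZMod.castHom ht (ZMod t) x = 0 ∨ ZMod.castHom hb (ZMod b) x = 0)
    (h : D r n t) : D (r + b) n t := by
  have hb0 : b ≠ 0 := by
    rintro rfl
    exact NeZero.ne L (by simpa using hbn)
  have : NeZero b := ⟨hb0⟩
  have h1 := HF.addBlock hb ht hst h
  refine HF.model ((Eqp.fst r n).sum (eqp_castHom hbn hb)) (Eqp.fst (r + b) n)
    (Fintype.equivOfCardEq ?_) (Equiv.refl _) h1
  rw [Fintype.card_sum, Fintype.card_fin, ZMod.card, Fintype.card_fin]

theorem D.small {r n t : ℕ} [NeZero t] (h : r * n ≤ t) (m : ℕ)
    (hm : n ^ 2 * (r * (r - 1)) = t * (2 * m)) : D r n t := by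
  refine HF.of_card_le _ t ?_ m ?_
  · rw [Fintype.card_prod, Fintype.card_fin, Fintype.card_fin]
    exact h
  · rw [← hm, ← sum_ne]

theorem D.star {R n h t₁ : ℕ} [NeZero (2 * h)] (hC : Cond h t₁) (hn : 2 * h = t₁ * n)
    (hR : R * n ≤ 2 * h) (m : ℕ) (hm : n ^ 2 * (R * (R - 1)) = 2 * h * (2 * m + 1)) :
    D (R + t₁) n (2 * h) := by
  have hb0 : t₁ ≠ 0 := by
    rintro rfl
    exact NeZero.ne (2 * h) (by simpa using hn)
  have : NeZero t₁ := ⟨hb0⟩
  have h1 := HF.star (Prod.fst : Fin R × Fin n → Fin R) hC (by
    rw [Fintype.card_prod, Fintype.card_fin, Fintype.card_fin]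
    exact hR) m (by rw [← hm, ← sum_ne])
  refine HF.model ((Eqp.fst R n).sum (eqp_castHom hn hC.dvd)) (Eqp.fst (R + t₁) n)
    (Fintype.equivOfCardEq ?_) (Equiv.refl _) h1
  rw [Fintype.card_sum, Fintype.card_fin, ZMod.card, Fintype.card_fin]

/-- Expansion of the number of edges. -/
theorem expand (r b : ℕ) : (r + b) * (r + b - 1) = r * (r - 1) + 2 * b * r + b * (b - 1) := by
  rcases r with _ | r
  · simp
  · rcases b with _ | b
    · simp
    · have e1 : r + 1 + (b + 1) - 1 = r + b + 1 := by omega
      rw [e1, Nat.add_sub_cancel, Nat.add_sub_cancel]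
      ring

theorem main_dvd {n t : ℕ} (hn : 0 < n) (ht : 0 < t) (hnt : n ∣ t) (r : ℕ)
    (hr : 2 * t ∣ n ^ 2 * (r * (r - 1))) : D r n t := by
  induction r using Nat.strong_induction_on with
  | _ r ih =>
    obtain ⟨t₁, rfl⟩ := hnt
    have ht₁ : 0 < t₁ := Nat.pos_of_mul_pos_left ht |> fun _ => by
      rcases Nat.eq_zero_or_pos t₁ with h | h
      · subst h
        simp at ht
      · exact h
    have : NeZero (n * t₁) := ⟨ht.ne'⟩
    by_cases hA : (n * t₁) % 2 = 1 ∨ n % 2 = 0
    · -- the block has `t₁` parts
      by_cases hrb : t₁ ≤ r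
      · obtain ⟨q, rfl⟩ : ∃ q, r = q + t₁ := ⟨r - t₁, by omega⟩
        have hst : ∀ x : ZMod (n * t₁), 2 * x.val = n * t₁ →
            ZMod.castHom (dvd_refl (n * t₁)) (ZMod (n * t₁)) x = 0 ∨
              ZMod.castHom (Dvd.intro_left n rfl) (ZMod t₁) x = 0 := by
          intro x hx
          right
          have hn2 : n % 2 = 0 := by
            rcases hA with h | h
            · omega
            · exact h
          obtain ⟨n', rfl⟩ : ∃ n', n = 2 * n' := ⟨n / 2, by omega⟩
          rw [ZMod.castHom_apply, ZMod.cast_eq_val, ZMod.natCast_eq_zero_iff]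
          refine ⟨n', ?_⟩
          have : 2 * x.val = 2 * (t₁ * n') := by
            rw [hx]
            ring
          omega
        refine D.block (mul_comm _ _) (Dvd.intro_left n rfl) dvd_rfl hst (ih q (by omega) ?_)
        rw [expand] at hr
        have h1 : n ^ 2 * (q * (q - 1) + 2 * t₁ * q + t₁ * (t₁ - 1)) =
          n ^ 2 * (q * (q - 1)) + (2 * (n * t₁) * (n * q) + (n * t₁) * (n * (t₁ - 1))) := by ring
        rw [h1] at hr
        refine (Nat.dvd_add_left (Dvd.dvd.add (dvd_mul_right _ _) ?_)).1 hr
        have h2 : 2 ∣ n * (t₁ - 1) := by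
          rcases hA with h | h
          · have h3 : t₁ % 2 = 1 := by
              have := Nat.odd_mul.1 (Nat.odd_iff.2 h)
              exact Nat.odd_iff.1 this.2
            exact Dvd.dvd.mul_left (by omega) n
          · exact Dvd.dvd.mul_right (by omega) _
        rw [mul_comm 2]
        exact Nat.mul_dvd_mul_left _ h2
      · -- few vertices
        obtain ⟨m, hm⟩ := hr
        refine D.small (le_of_lt ?_) m (by rw [hm]; ring)
        rw [mul_comm r n]
        exact Nat.mul_lt_mul_of_pos_left (by omega) hn
    · -- the block has `2 t₁` parts; `t` is even and `n` is odd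
      push Not at hA
      have hn1 : n % 2 = 1 := by omega
      have ht₁2 : t₁ % 2 = 0 := by
        by_contra h
        exact hA.1 (Nat.odd_iff.1 (Nat.odd_mul.2 ⟨Nat.odd_iff.2 hn1, Nat.odd_iff.2 (by omega)⟩))
      obtain ⟨s, rfl⟩ : ∃ s, t₁ = 2 * s := ⟨t₁ / 2, by omega⟩
      by_cases hrb : 2 * (2 * s) ≤ r
      · obtain ⟨q, rfl⟩ : ∃ q, r = q + 2 * (2 * s) := ⟨r - 2 * (2 * s), by omega⟩
        have : NeZero (2 * (n * (2 * s))) := ⟨by positivity⟩
        have hst : ∀ x : ZMod (2 * (n * (2 * s))), 2 * x.val = 2 * (n * (2 * s)) →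
            ZMod.castHom (Dvd.intro_left 2 rfl) (ZMod (n * (2 * s))) x = 0 ∨
              ZMod.castHom (show 2 * (2 * s) ∣ 2 * (n * (2 * s)) from ⟨n, by ring⟩)
                (ZMod (2 * (2 * s))) x = 0 := by
          intro x hx
          left
          rw [ZMod.castHom_apply, ZMod.cast_eq_val, ZMod.natCast_eq_zero_iff]
          exact ⟨1, by omega⟩
        refine D.block (by ring) ⟨n, by ring⟩ (Dvd.intro_left 2 rfl) hst (ih q (by omega) ?_)
        rw [expand] at hr
        have h1 : n ^ 2 * (q * (q - 1) + 2 * (2 * (2 * s)) * q +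
            2 * (2 * s) * (2 * (2 * s) - 1)) =
          n ^ 2 * (q * (q - 1)) + (2 * (n * (2 * s)) * (n * (2 * q)) +
            2 * (n * (2 * s)) * (n * (2 * (2 * s) - 1))) := by ring
        rw [h1] at hr
        exact (Nat.dvd_add_left (Dvd.dvd.add (dvd_mul_right _ _) (dvd_mul_right _ _))).1 hr
      · by_cases hsmall : r ≤ 2 * s
        · obtain ⟨m, hm⟩ := hr
          refine D.small ?_ m (by rw [hm]; ring)
          rw [mul_comm r n]
          exact Nat.mul_le_mul_left _ hsmall
        · -- stars
          obtain ⟨R, rfl⟩ : ∃ R, r = R + 2 * s := ⟨r - 2 * s, by omega⟩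
          have hR0 : 0 < R := by omega
          have hR1 : R < 2 * s := by omega
          obtain ⟨w, hw⟩ := hr
          rw [expand] at hw
          obtain ⟨k, rfl⟩ : ∃ k, n = 2 * k + 1 := ⟨n / 2, by omega⟩
          set n := 2 * k + 1 with hndef
          obtain ⟨x, hx⟩ : ∃ x, 2 * s = x + 1 := ⟨2 * s - 1, by omega⟩
          -- the odd multiple
          have h1 : n ^ 2 * (R * (R - 1)) + n * (2 * s) * (n * (2 * R + (2 * s - 1))) =
              n * (2 * s) * (2 * w) := by
            rw [show n * (2 * s) * (2 * w) = 2 * (n * (2 * s)) * w by ring, ← hw]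
            ring
          have h2 : n * (2 * R + (2 * s - 1)) % 2 = 1 := by
            apply Nat.odd_iff.1
            refine Nat.odd_mul.2 ⟨Nat.odd_iff.2 (by omega), Nat.odd_iff.2 (by omega)⟩
          set y := n * (2 * R + (2 * s - 1)) with hy
          have hpos : 0 < n * (2 * s) := by positivity
          have h3 : y ≤ 2 * w := by
            refine le_of_mul_le_mul_left ?_ hpos
            omega
          obtain ⟨m, hm⟩ : ∃ m, 2 * w = y + (2 * m + 1) := ⟨(2 * w - y) / 2, by omega⟩
          have h4 : n ^ 2 * (R * (R - 1)) = n * (2 * s) * (2 * m + 1) := by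
            rw [hm, mul_add (n * (2 * s))] at h1
            omega
          have hR2 : 2 ≤ R := by
            by_contra h5
            have : R = 1 := by omega
            subst this
            have : 0 < n * (2 * s) * (2 * m + 1) := by positivity
            rw [← h4] at this
            simp at this
          have hs2 : 2 ≤ s := by omega
          have h5 : n * (2 * s) = 2 * (n * s) := by ring
          have h6 : D (R + 2 * s) n (2 * (n * s)) := by
            have : NeZero (2 * (n * s)) := ⟨by positivity⟩
            refine D.star ⟨?_, ⟨n, by ring⟩, ?_, ?_, ?_⟩ (by ring) ?_ m (by rw [h4]; ring)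
            · -- `3 ≤ n * s`
              by_contra h7
              push Not at h7
              have h8 : k = 0 := by
                by_contra h9
                have : 3 * 2 ≤ n * s := Nat.mul_le_mul (by omega) hs2
                omega
              have h9 : n = 1 := by omega
              rw [h9] at h7 h4
              have h10 : s = 2 := by omega
              subst h10
              have h11 : R = 2 ∨ R = 3 := by omega
              rcases h11 with rfl | rfl
              · simp at h4
                omega
              · simp at h4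
                omega
            · -- `¬ 2 s ∣ n s`
              rintro ⟨z, hz⟩
              have : s * n = s * (2 * z) := by
                rw [mul_comm s n, hz]
                ring
              have := Nat.eq_of_mul_eq_mul_left (by omega) this
              omega
            · intro h7
              have := Nat.le_of_dvd one_pos h7
              omega
            · -- `¬ 2 s ∣ n s - 1`
              rintro ⟨z, hz⟩
              have h7 : 1 ≤ n * s := Nat.mul_pos (by omega) (by omega)
              have h8 : n * s = s * (2 * z) + 1 := by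
                have : 2 * s * z = s * (2 * z) := by ring
                omega
              have h9 : s ∣ 1 := by
                rw [← Nat.dvd_add_right (Dvd.intro (2 * z) rfl : s ∣ s * (2 * z)), ← h8]
                exact Dvd.intro_left n rfl
              have := Nat.le_of_dvd one_pos h9
              omega
            · rw [mul_comm R n, ← h5]
              exact Nat.mul_le_mul_left _ (by omega)
          rw [h5]
          exact h6

/-- The divisibility theorem. -/
theorem main {r n t : ℕ} (hn : 0 < n) (ht : 0 < t) (hr : t ∣ n ^ 2 * r.choose 2) : D r n t := by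
  obtain ⟨g, n', t', hg, hcop, rfl, rfl⟩ : ∃ g n' t', 0 < g ∧ Nat.Coprime n' t' ∧ n = n' * g ∧
      t = t' * g := by
    obtain ⟨g, n', t', hg, hc, h1, h2⟩ := Nat.exists_coprime' (Nat.gcd_pos_of_pos_left t hn)
    exact ⟨g, n', t', hg, hc, h1, h2⟩
  have hn' : 0 < n' := Nat.pos_of_mul_pos_right hn |> fun _ => by
    rcases Nat.eq_zero_or_pos n' with h | h
    · subst h
      simp at hn
    · exact h
  have h1 : t' * g ∣ g ^ 2 * r.choose 2 := by
    have h2 : g * t' ∣ g * (n' ^ 2 * (g * r.choose 2)) := by
      rw [mul_comm g t']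
      refine hr.trans (dvd_of_eq ?_)
      ring
    have h3 : t' ∣ n' ^ 2 * (g * r.choose 2) := Nat.dvd_of_mul_dvd_mul_left hg h2
    have h4 : t' ∣ g * r.choose 2 := by
      refine Nat.Coprime.dvd_of_dvd_mul_left ?_ h3
      exact (hcop.symm.pow_right 2)
    rw [mul_comm t' g, pow_two, mul_assoc]
    exact Nat.mul_dvd_mul_left _ h4
  have h5 : 2 * (t' * g) ∣ g ^ 2 * (r * (r - 1)) := by
    have h6 : r * (r - 1) = 2 * r.choose 2 := by
      rw [Nat.choose_two_right, Nat.mul_div_cancel' (Nat.even_mul_pred_self r).two_dvd]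
    rw [h6, show g ^ 2 * (2 * r.choose 2) = 2 * (g ^ 2 * r.choose 2) by ring]
    exact Nat.mul_dvd_mul_left _ h1
  have h7 : D r g (t' * g) := main_dvd hg ht (Dvd.intro_left t' rfl) r h5
  have h8 := HF.blowup (B := Fin n') h7
  rw [mul_comm n' g]
  exact HF.model (Eqp.fst r g).blowup (Eqp.fst r (g * n')) (Equiv.refl _) (Equiv.refl _) h8

end Pool.Agent.W2helper95.EQ
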