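import Pool.Agent.W2helper95.EqColour
import Pool.Agent.W2helper95.EqBasic

/-!
Matchings as involutions; conjugation of involutions; the case of few vertices.
-/

namespace Pool.Agent.W2helper95.EQ

open Equiv Finset

variable {V κ : Type}

theorem PC.exists_perm [Fintype V] [DecidableEq V] {G : SimpleGraph V} {c : V → V → κ}
    (h : PC G c) (i : κ) :
    ∃ f : Perm V, f ^ 2 = 1 ∧ (∀ u v, (G.Adj u v ∧ c u v = i) ↔ (f u = v ∧ u ≠ v)) ∧
      f.support = cov G c i := by
  classical
  let g : V → V := fun u => if h : ∃ v, G.Adj u v ∧ c u v = i then h.choose else u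
  have hg1 : ∀ u v, G.Adj u v → c u v = i → g u = v := by
    intro u v h1 h2
    have h3 : ∃ v, G.Adj u v ∧ c u v = i := ⟨v, h1, h2⟩
    simp only [g, dif_pos h3]
    exact h.inj u _ _ h3.choose_spec.1 h1 (h3.choose_spec.2.trans h2.symm)
  have hg2 : ∀ u, (¬ ∃ v, G.Adj u v ∧ c u v = i) → g u = u := by
    intro u h3
    simp only [g, dif_neg h3]
  have hinv : Function.Involutive g := by
    intro u
    by_cases h3 : ∃ v, G.Adj u v ∧ c u v = i
    · obtain ⟨v, h1, h2⟩ := h3
      rw [hg1 u v h1 h2]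
      exact hg1 v u h1.symm (by rw [h.symm, h2])
    · rw [hg2 u h3, hg2 u h3]
  have hiff : ∀ u v, (G.Adj u v ∧ c u v = i) ↔ (g u = v ∧ u ≠ v) := by
    intro u v
    constructor
    · rintro ⟨h1, h2⟩
      exact ⟨hg1 u v h1 h2, h1.ne⟩
    · rintro ⟨h1, h2⟩
      by_cases h3 : ∃ v, G.Adj u v ∧ c u v = i
      · obtain ⟨w, h4, h5⟩ := h3
        have := hg1 u w h4 h5
        rw [h1] at this
        subst this
        exact ⟨h4, h5⟩
      · rw [hg2 u h3] at h1
        exact absurd h1 h2
  refine ⟨hinv.toPerm, ?_, ?_, ?_⟩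
  · ext u
    rw [pow_two]
    exact hinv u
  · exact hiff
  · ext u
    rw [Perm.mem_support, mem_cov]
    constructor
    · intro h1
      exact ⟨g u, (hiff u (g u)).2 ⟨rfl, fun h => h1 h.symm⟩⟩
    · rintro ⟨v, h1⟩
      obtain ⟨h2, h3⟩ := (hiff u v).1 h1
      intro h4
      exact h3 (h4.symm.trans h2)

theorem PC.sum_cov [Fintype V] [Fintype κ] {G : SimpleGraph V} [DecidableRel G.Adj]
    {c : V → V → κ} (h : PC G c) : ∑ i, (cov G c i).card = ∑ u, G.degree u := by
  classical
  have h1 : ∀ i : κ, (cov G c i).card = ∑ u : V, if u ∈ cov G c i then 1 else 0 := by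
    intro i
    rw [← card_filter]
    congr 1
    ext u
    simp
  simp_rw [h1]
  rw [sum_comm]
  refine sum_congr rfl (fun u _ => ?_)
  rw [← card_filter, ← SimpleGraph.card_neighborFinset_eq_degree,
    ← card_image_of_injOn (f := fun v => c u v) (s := G.neighborFinset u)]
  · congr 1
    ext i
    rw [mem_filter, mem_cov, mem_image]
    simp
  · intro v hv w hw hvw
    rw [mem_coe, SimpleGraph.mem_neighborFinset] at hv hw
    exact h.inj u v w hv hw hvw

theorem exists_matchings [Fintype V] [DecidableEq V] (G : SimpleGraph V) [DecidableRel G.Adj]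
    (t : ℕ) [NeZero t] (hV : Fintype.card V ≤ t) :
    ∃ (c : V → V → ZMod t) (f : ZMod t → Perm V), (∀ u v, c u v = c v u) ∧
      (∀ i, f i ^ 2 = 1) ∧ (∀ i u v, (G.Adj u v ∧ c u v = i) ↔ (f i u = v ∧ u ≠ v)) ∧
      (∀ i j, (f i).support.card ≤ (f j).support.card + 2) ∧
      ∑ i, (f i).support.card = ∑ u, G.degree u := by
  classical
  obtain ⟨e⟩ : Nonempty (V ↪ ZMod t) := Function.Embedding.nonempty_of_card_le (by
    rw [ZMod.card]
    exact hV)
  have h₀ : PC G (fun u v => e u + e v) := by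
    refine ⟨fun u v => add_comm _ _, fun u v w _ _ h => ?_⟩
    exact e.injective (add_left_cancel h)
  obtain ⟨c, hc, he⟩ := exists_equitable h₀
  choose f hf1 hf2 hf3 using fun i => hc.exists_perm i
  refine ⟨c, f, hc.symm, hf1, hf2, ?_, ?_⟩
  · intro i j
    rw [hf3, hf3]
    exact he i j
  · simp_rw [hf3]
    exact hc.sum_cov

theorem cycleType_of_sq [Fintype V] [DecidableEq V] {f : Perm V} (hf : f ^ 2 = 1) :
    f.cycleType = Multiset.replicate (f.support.card / 2) 2 := by
  have h1 : ∀ c ∈ f.cycleType, c = 2 := (Perm.pow_prime_eq_one_iff (p := 2)).1 hf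
  have h2 : f.cycleType = Multiset.replicate (Multiset.card f.cycleType) 2 :=
    Multiset.eq_replicate_card.2 h1
  have h3 := f.sum_cycleType
  rw [h2, Multiset.sum_replicate, smul_eq_mul] at h3
  rw [h2, ← h3, Nat.mul_div_cancel _ (by norm_num)]

theorem exists_conj [Fintype V] [DecidableEq V] {f g : Perm V} (hf : f ^ 2 = 1) (hg : g ^ 2 = 1)
    (h : f.support.card = g.support.card) : ∃ σ : Perm V, ∀ v, σ (f v) = g (σ v) := by
  have h1 : IsConj f g := by
    rw [Perm.isConj_iff_cycleType_eq, cycleType_of_sq hf, cycleType_of_sq hg, h]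
  obtain ⟨σ, hσ⟩ := isConj_iff.1 h1
  refine ⟨σ, fun v => ?_⟩
  rw [← hσ]
  simp

/-- Involutions which live on sets `S`, `S'` of the same size, together with points outside. -/
theorem exists_conj_star [Fintype V] [DecidableEq V] {z z' : V} {S S' : Finset V}
    {f f' : Perm V} (hz : z ∉ S) (hz' : z' ∉ S') (hS : S.card = S'.card) (hf : f ^ 2 = 1)
    (hf' : f' ^ 2 = 1) (hs : f.support ⊆ S) (hs' : f'.support ⊆ S')
    (hc : f.support.card = f'.support.card) :
    ∃ σ : Perm V, σ z = z' ∧ (∀ v, v ∈ S ↔ σ v ∈ S') ∧ ∀ v, σ (f v) = f' (σ v) := by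
  obtain ⟨g, hg⟩ := exists_conj hf hf' hc
  have hgs : ∀ v, v ∈ f.support ↔ g v ∈ f'.support := by
    intro v
    rw [Perm.mem_support, Perm.mem_support, ← hg, Ne, Ne, g.apply_eq_iff_eq]
  -- first extension
  have hcard : Fintype.card {x // x ∈ S} = S'.card := by
    rw [Fintype.card_coe, hS]
  obtain ⟨E, hE⟩ := Finset.exists_equiv_extend_of_card_eq (t := S') hcard
    (s := univ.filter (fun x : {x // x ∈ S} => (x : V) ∈ f.support))
    (f := fun x => g x) (by
      intro y hy
      rw [mem_image] at hy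
      obtain ⟨x, hx, rfl⟩ := hy
      exact hs' ((hgs _).1 (mem_filter.1 hx).2)) (fun x _ y _ hxy => Subtype.ext (g.injective hxy))
  have hE' : ∀ x : {x // x ∈ S}, (x : V) ∈ f.support → (E x : V) = g x :=
    fun x hx => hE x (mem_filter.2 ⟨mem_univ _, hx⟩)
  -- second extension
  obtain ⟨τ, hτ⟩ := Finset.exists_equiv_extend_of_card_eq (α := V) (β := V)
    (t := (univ : Finset V)) (by rw [card_univ])
    (s := insert z S) (f := fun v => if h : v ∈ S then (E ⟨v, h⟩ : V) else z') (subset_univ _) (by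
      intro x hx y hy hxy
      rw [mem_coe, mem_insert] at hx hy
      by_cases hxS : x ∈ S
      · by_cases hyS : y ∈ S
        · simp only [dif_pos hxS, dif_pos hyS] at hxy
          have := E.injective (Subtype.ext hxy)
          exact congrArg Subtype.val this
        · simp only [dif_pos hxS, dif_neg hyS] at hxy
          exact absurd (hxy ▸ (E ⟨x, hxS⟩).2) hz'
      · by_cases hyS : y ∈ S
        · simp only [dif_neg hxS, dif_pos hyS] at hxy
          exact absurd (hxy.symm ▸ (E ⟨y, hyS⟩).2) hz'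
        · rw [hx.resolve_right hxS, hy.resolve_right hyS])
  let σ : Perm V := τ.trans (Equiv.subtypeUnivEquiv (fun v => mem_univ v))
  have hσ : ∀ v, σ v = (τ v : V) := fun v => rfl
  have hσS : ∀ v (h : v ∈ S), σ v = E ⟨v, h⟩ := by
    intro v h
    rw [hσ, hτ v (mem_insert_of_mem h), dif_pos h]
  have hσz : σ z = z' := by
    rw [hσ, hτ z (mem_insert_self _ _), dif_neg hz]
  have hmem : ∀ v, v ∈ S ↔ σ v ∈ S' := by
    intro v
    constructor
    · intro h
      rw [hσS v h]
      exact (E ⟨v, h⟩).2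
    · intro h
      obtain ⟨x, hx⟩ := E.surjective ⟨σ v, h⟩
      have h1 : σ x = σ v := by
        rw [hσS x x.2, hx]
      rw [← σ.injective h1]
      exact x.2
  refine ⟨σ, hσz, hmem, fun v => ?_⟩
  by_cases hv : v ∈ f.support
  · have h1 : f v ∈ f.support := Perm.apply_mem_support.2 hv
    rw [hσS _ (hs h1), hσS _ (hs hv), hE' _ h1, hE' _ hv, hg]
  · have h2 : f v = v := by
      by_contra h
      exact hv (Perm.mem_support.2 h)
    rw [h2]
    by_contra h3
    have h4 : σ v ∈ f'.support := Perm.mem_support.2 (fun h => h3 h.symm)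
    obtain ⟨w, hw⟩ := g.surjective (σ v)
    have h5 : w ∈ f.support := by
      rw [hgs, hw]
      exact h4
    have h6 : σ w = σ v := by
      rw [hσS _ (hs h5), hE' _ h5, hw]
    rw [← σ.injective h6] at hv
    exact hv h5

/-- A list of even numbers which differ by at most two and whose average is an even integer. -/
theorem all_eq {κ : Type} [Fintype κ] (a : κ → ℕ) (h2 : ∀ i, 2 ∣ a i)
    (hd : ∀ i j, a i ≤ a j + 2) (m : ℕ) (hs : ∑ i, a i = Fintype.card κ * (2 * m)) (i j : κ) :
    a i = a j := by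
  by_contra hne
  wlog hlt : a i < a j generalizing i j
  · exact this j i (fun h => hne h.symm) (by omega)
  have hij : a j = a i + 2 := by
    have := h2 i
    have := h2 j
    have := hd j i
    omega
  have h3 : ∀ k, a i ≤ a k := fun k => by
    have := hd j k
    omega
  have h4 : ∀ k, a k ≤ a i + 2 := fun k => hd k i
  have h5 : ∑ k : κ, a i < ∑ k, a k := sum_lt_sum (fun k _ => h3 k) ⟨j, mem_univ _, hlt⟩
  have h6 : ∑ k, a k < ∑ k : κ, (a i + 2) :=
    sum_lt_sum (fun k _ => h4 k) ⟨i, mem_univ _, by omega⟩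
  rw [sum_const, card_univ, smul_eq_mul, hs] at h5
  rw [sum_const, card_univ, smul_eq_mul, hs] at h6
  have h7 := lt_of_mul_lt_mul_left h5 (Nat.zero_le _)
  have h8 := lt_of_mul_lt_mul_left h6 (Nat.zero_le _)
  have := h2 i
  omega

/-- The case of few vertices. -/
theorem HF.of_card_le [Fintype V] {A : Type} [DecidableEq A] (π : V → A) (t : ℕ) [NeZero t]
    (hV : Fintype.card V ≤ t) (m : ℕ)
    (hm : ∑ u : V, (univ.filter (fun v => π u ≠ π v)).card = t * (2 * m)) : HF π (ZMod t) := by
  classical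
  let G : SimpleGraph V := SimpleGraph.comap π ⊤
  have hG : ∀ u v, G.Adj u v ↔ π u ≠ π v := fun u v => by
    simp [G]
  obtain ⟨c, f, hc, hf1, hf2, hf3, hf4⟩ := exists_matchings G t hV
  have hdeg : ∑ u, G.degree u = t * (2 * m) := by
    rw [← hm]
    refine sum_congr rfl (fun u _ => ?_)
    rw [← SimpleGraph.card_neighborFinset_eq_degree]
    congr 1
    ext v
    rw [SimpleGraph.mem_neighborFinset, mem_filter, hG]
    simp
  have hall := all_eq (fun i => (f i).support.card)
    (fun i => Perm.two_dvd_card_support (hf1 i)) hf3 m (by rw [hf4, hdeg, ZMod.card])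
  refine ⟨c, hc, fun i j => ?_⟩
  obtain ⟨σ, hσ⟩ := exists_conj (hf1 i) (hf1 j) (hall i j)
  refine ⟨σ, fun u v => ?_⟩
  rw [← hG, ← hG, hf2, hf2, ← hσ, σ.apply_eq_iff_eq, Ne, Ne, σ.apply_eq_iff_eq]

end Pool.Agent.W2helper95.EQ
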