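import Pool.Agent.W2helper95.EqMatch
import Pool.Agent.W2helper95.EqBlock

/-!
The case of more than `t` but fewer than `2 t` vertices.
-/

namespace Pool.Agent.W2helper95.EQ

open Equiv Finset

section cyc

variable {h t₁ : ℕ}

/-- The differences of the stars. -/
def TT (h t₁ : ℕ) [NeZero (2 * h)] : Finset (ZMod (2 * h)) :=
  univ.filter (fun d => (0 < d.val ∧ d.val < h ∧ d.val + 1 ≠ h ∧ ¬ t₁ ∣ d.val) ∨ d.val = h + 1)

theorem mem_TT [NeZero (2 * h)] {d : ZMod (2 * h)} : d ∈ TT h t₁ ↔
    (0 < d.val ∧ d.val < h ∧ d.val + 1 ≠ h ∧ ¬ t₁ ∣ d.val) ∨ d.val = h + 1 := by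
  simp [TT]

/-- The conditions on the numbers. -/
structure Cond (h t₁ : ℕ) : Prop where
  hh : 3 ≤ h
  dvd : t₁ ∣ 2 * h
  nh : ¬ t₁ ∣ h
  n1 : ¬ t₁ ∣ 1
  nm : ¬ t₁ ∣ (h - 1)

variable [NeZero (2 * h)]

theorem sub_val_cases (x y : ZMod (2 * h)) :
    (x = y ∧ (x - y).val = 0 ∧ (y - x).val = 0) ∨
      (x ≠ y ∧ 0 < (y - x).val ∧ (y - x).val < 2 * h ∧ (x - y).val = 2 * h - (y - x).val) := by
  by_cases hxy : y - x = 0
  · left
    rw [sub_eq_zero] at hxy
    subst hxy
    simp
  · right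
    have h1 : (x - y).val = 2 * h - (y - x).val := by
      rw [← neg_sub y x, val_neg_of_ne hxy]
    exact ⟨fun h => hxy (by rw [h, sub_self]), val_pos_of_ne hxy, ZMod.val_lt _, h1⟩

theorem not_mem_of_mem (hC : Cond h t₁) {x y : ZMod (2 * h)} (hxy : y - x ∈ TT h t₁) :
    x - y ∉ TT h t₁ := by
  have hh := hC.hh
  rw [mem_TT] at *
  rcases sub_val_cases x y with h1 | h1 <;> omega

theorem p_ne_iff (hC : Cond h t₁) (x y : ZMod (2 * h)) :
    ZMod.castHom hC.dvd (ZMod t₁) x ≠ ZMod.castHom hC.dvd (ZMod t₁) y ↔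
      ¬ t₁ ∣ (y - x).val := by
  rw [not_iff_not, ← sub_eq_zero, ← map_sub, ← neg_sub, map_neg, neg_eq_zero, ZMod.castHom_apply,
    ZMod.cast_eq_val, ZMod.natCast_eq_zero_iff]

theorem p_ne_of_mem (hC : Cond h t₁) {x y : ZMod (2 * h)} (hxy : y - x ∈ TT h t₁) :
    ZMod.castHom hC.dvd (ZMod t₁) x ≠ ZMod.castHom hC.dvd (ZMod t₁) y := by
  rw [p_ne_iff hC]
  rw [mem_TT] at hxy
  rcases hxy with hxy | hxy
  · exact hxy.2.2.2
  · rw [hxy]
    intro h1
    have h2 : t₁ ∣ 2 * h - (h + 1) := Nat.dvd_sub hC.dvd h1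
    have h3 : 2 * h - (h + 1) = h - 1 := by omega
    rw [h3] at h2
    exact hC.nm h2

theorem mem_or_mem (hC : Cond h t₁) {x y : ZMod (2 * h)}
    (hxy : ZMod.castHom hC.dvd (ZMod t₁) x ≠ ZMod.castHom hC.dvd (ZMod t₁) y) :
    y - x ∈ TT h t₁ ∨ x - y ∈ TT h t₁ ∨ (y - x).val = h := by
  have h0 := (p_ne_iff hC y x).1 hxy.symm
  rw [p_ne_iff hC] at hxy
  rw [mem_TT, mem_TT]
  have hh := hC.hh
  rcases sub_val_cases x y with h1 | h1
  · exact absurd (by rw [h1.2.2]; exact dvd_zero _) hxy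
  · generalize (x - y).val = a at *
    generalize (y - x).val = b at *
    obtain ⟨-, h2, h3, h4⟩ := h1
    by_cases h5 : b + 1 = h
    · right; left; right; omega
    · by_cases h6 : b = h + 1
      · left; right; exact h6
      · rcases lt_trichotomy b h with h7 | h7 | h7
        · left; left; exact ⟨h2, h7, h5, hxy⟩
        · right; right; exact h7
        · right; left; left
          exact ⟨by omega, by omega, by omega, h0⟩

/-- The antipode. -/
def Hf (h : ℕ) : ZMod (2 * h) := (h : ZMod (2 * h))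

theorem Hf_add (h : ℕ) : Hf h + Hf h = 0 := by
  unfold Hf
  have : ((2 * h : ℕ) : ZMod (2 * h)) = 0 := ZMod.natCast_self _
  push_cast at this
  linear_combination this

omit [NeZero (2 * h)] in
theorem Hf_val (hh : 0 < h) : (Hf h).val = h :=
  ZMod.val_natCast_of_lt (by omega)

theorem eq_Hf (hh : 0 < h) {x : ZMod (2 * h)} (hx : x.val = h) : x = Hf h := by
  apply ZMod.val_injective
  rw [hx, Hf_val hh]

theorem add_Hf_val (hh : 0 < h) (x : ZMod (2 * h)) : (x + Hf h).val < h ↔ ¬ (x.val < h) := by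
  have h1 := ZMod.val_lt x
  rw [ZMod.val_add, Hf_val hh]
  by_cases h2 : x.val < h
  · rw [Nat.mod_eq_of_lt (by omega)]
    omega
  · rw [Nat.mod_eq_sub_mod (by omega), Nat.mod_eq_of_lt (by omega)]
    omega

theorem one_mem (hC : Cond h t₁) : (1 : ZMod (2 * h)) ∈ TT h t₁ := by
  have hh := hC.hh
  have : (1 : ZMod (2 * h)).val = 1 := by
    have := ZMod.val_natCast_of_lt (n := 2 * h) (a := 1) (by omega)
    rwa [Nat.cast_one] at this
  rw [mem_TT, this]
  left
  exact ⟨by omega, by omega, by omega, hC.n1⟩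

theorem one_add_Hf_mem (hC : Cond h t₁) : (1 + Hf h : ZMod (2 * h)) ∈ TT h t₁ := by
  have hh := hC.hh
  have : (1 + Hf h : ZMod (2 * h)).val = h + 1 := by
    have := ZMod.val_natCast_of_lt (n := 2 * h) (a := h + 1) (by omega)
    rw [← this]
    congr 1
    push_cast
    unfold Hf
    ring
  rw [mem_TT, this]
  right
  rfl

/-- The colours in the cyclic part. -/
def cc (h t₁ : ℕ) [NeZero (2 * h)] (x y : ZMod (2 * h)) : ZMod (2 * h) :=
  if y - x ∈ TT h t₁ then x else if x - y ∈ TT h t₁ then y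
  else if y = x + Hf h then (if (x - 1).val < h then x - 1 else y - 1) else 0

theorem cc_symm (hC : Cond h t₁) (x y : ZMod (2 * h)) : cc h t₁ x y = cc h t₁ y x := by
  have hh := hC.hh
  unfold cc
  by_cases h1 : y - x ∈ TT h t₁
  · rw [if_pos h1, if_neg (not_mem_of_mem hC h1), if_pos h1]
  · rw [if_neg h1]
    by_cases h2 : x - y ∈ TT h t₁
    · rw [if_pos h2, if_pos h2]
    · rw [if_neg h2, if_neg h2, if_neg h1]
      by_cases h3 : y = x + Hf h
      · have h4 : x = y + Hf h := by
          rw [h3, add_assoc, Hf_add, add_zero]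
        rw [if_pos h3, if_pos h4]
        have h5 : (y - 1).val < h ↔ ¬ ((x - 1).val < h) := by
          rw [← add_Hf_val (by omega) (x - 1), h3]
          ring_nf
        by_cases h6 : (x - 1).val < h
        · rw [if_pos h6, if_neg (fun h => (h5.1 h) h6)]
        · rw [if_neg h6, if_pos (h5.2 h6)]
      · have h4 : ¬ x = y + Hf h := by
          intro h5
          apply h3
          rw [h5, add_assoc, Hf_add, add_zero]
        rw [if_neg h3, if_neg h4]

/-- The additional edge of the star with centre `z`. -/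
def gg (h : ℕ) (z : ZMod (2 * h)) : Perm (ZMod (2 * h)) :=
  if z.val < h then swap (z + 1) (z + 1 + Hf h) else 1

omit [NeZero (2 * h)] in
theorem Hf_ne (hh : 0 < h) : Hf h ≠ 0 := by
  intro h1
  have h2 := Hf_val hh
  rw [h1, ZMod.val_zero] at h2
  omega

omit [NeZero (2 * h)] in
theorem gg_iff (hh : 0 < h) (z x y : ZMod (2 * h)) : (gg h z x = y ∧ x ≠ y) ↔ (z.val < h ∧
    ((x = z + 1 ∧ y = z + 1 + Hf h) ∨ (x = z + 1 + Hf h ∧ y = z + 1))) := by
  have hne : z + 1 ≠ z + 1 + Hf h := by
    intro h1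
    exact Hf_ne hh (left_eq_add.1 h1)
  unfold gg
  by_cases h1 : z.val < h
  · rw [if_pos h1]
    constructor
    · rintro ⟨h2, h3⟩
      refine ⟨h1, ?_⟩
      by_cases h4 : x = z + 1
      · subst h4
        rw [swap_apply_left] at h2
        exact Or.inl ⟨rfl, h2.symm⟩
      · by_cases h5 : x = z + 1 + Hf h
        · subst h5
          rw [swap_apply_right] at h2
          exact Or.inr ⟨rfl, h2.symm⟩
        · rw [swap_apply_of_ne_of_ne h4 h5] at h2
          exact absurd h2 h3
    · rintro ⟨-, ⟨rfl, rfl⟩ | ⟨rfl, rfl⟩⟩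
      · exact ⟨swap_apply_left _ _, hne⟩
      · exact ⟨swap_apply_right _ _, hne.symm⟩
  · rw [if_neg h1]
    simp [h1]

theorem cc_iff (hC : Cond h t₁) (z x y : ZMod (2 * h)) :
    (ZMod.castHom hC.dvd (ZMod t₁) x ≠ ZMod.castHom hC.dvd (ZMod t₁) y ∧ cc h t₁ x y = z) ↔
      ((x = z ∧ y - z ∈ TT h t₁) ∨ (y = z ∧ x - z ∈ TT h t₁) ∨ (gg h z x = y ∧ x ≠ y)) := by
  have hh := hC.hh
  rw [gg_iff (by omega)]
  have hHT : Hf h ∉ TT h t₁ := by
    rw [mem_TT, Hf_val (by omega)]
    omega
  have hHp : ∀ x y : ZMod (2 * h), y - x = Hf h →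
      ZMod.castHom hC.dvd (ZMod t₁) x ≠ ZMod.castHom hC.dvd (ZMod t₁) y := by
    intro x y hxy
    rw [p_ne_iff hC, hxy, Hf_val (by omega)]
    exact hC.nh
  constructor
  · rintro ⟨h1, rfl⟩
    unfold cc
    by_cases h2 : y - x ∈ TT h t₁
    · rw [if_pos h2]
      exact Or.inl ⟨rfl, h2⟩
    · rw [if_neg h2]
      by_cases h3 : x - y ∈ TT h t₁
      · rw [if_pos h3]
        exact Or.inr (Or.inl ⟨rfl, h3⟩)
      · rw [if_neg h3]
        have h4 : (y - x).val = h := by
          rcases mem_or_mem hC h1 with h5 | h5 | h5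
          · exact absurd h5 h2
          · exact absurd h5 h3
          · exact h5
        have h5 : y = x + Hf h := by
          have := eq_Hf (by omega) h4
          rw [← this]
          ring
        rw [if_pos h5]
        right; right
        by_cases h6 : (x - 1).val < h
        · rw [if_pos h6]
          refine ⟨h6, Or.inl ⟨by ring, ?_⟩⟩
          rw [h5]
          ring
        · rw [if_neg h6]
          have h7 : y - 1 = (x - 1) + Hf h := by
            rw [h5]
            ring
          refine ⟨?_, Or.inr ⟨?_, by ring⟩⟩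
          · rw [h7, add_Hf_val (by omega)]
            exact h6
          · rw [h5]
            linear_combination - Hf_add h
  · rintro (⟨rfl, h1⟩ | ⟨rfl, h1⟩ | ⟨h1, ⟨rfl, rfl⟩ | ⟨rfl, rfl⟩⟩)
    · refine ⟨p_ne_of_mem hC h1, ?_⟩
      unfold cc
      rw [if_pos h1]
    · refine ⟨(p_ne_of_mem hC h1).symm, ?_⟩
      unfold cc
      rw [if_neg (not_mem_of_mem hC h1), if_pos h1]
    · have e1 : z + 1 + Hf h - (z + 1) = Hf h := by ring
      have e2 : z + 1 - (z + 1 + Hf h) = Hf h := by
        linear_combination - Hf_add h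
      refine ⟨hHp _ _ e1, ?_⟩
      unfold cc
      rw [e1, e2, if_neg hHT, if_neg hHT, if_pos rfl, add_sub_cancel_right, if_pos h1]
    · have e1 : z + 1 + Hf h - (z + 1) = Hf h := by ring
      have e2 : z + 1 - (z + 1 + Hf h) = Hf h := by
        linear_combination - Hf_add h
      refine ⟨hHp _ _ e2, ?_⟩
      unfold cc
      rw [e1, e2, if_neg hHT, if_neg hHT, if_pos (by rw [add_assoc (z + 1), Hf_add, add_zero])]
      have e3 : z + 1 + Hf h - 1 = z + Hf h := by ring
      rw [e3, if_neg (by rw [add_Hf_val (by omega)]; exact not_not.2 h1)]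
      ring

theorem card_filter_sub (T : Finset (ZMod (2 * h))) (z : ZMod (2 * h)) :
    (univ.filter (fun y => y - z ∈ T)).card = T.card := by
  refine card_bij (fun y _ => y - z) (fun y hy => (mem_filter.1 hy).2) ?_ ?_
  · intro y _ y' _ hyy
    exact sub_left_injective hyy
  · intro w hw
    exact ⟨w + z, mem_filter.2 ⟨mem_univ _, by simpa using hw⟩, by ring⟩

theorem card_val_lt (hh : 0 < h) :
    (univ.filter (fun z : ZMod (2 * h) => z.val < h)).card = h := by
  conv_rhs => rw [← card_range h]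
  refine card_bij (fun z _ => z.val) ?_ ?_ ?_
  · intro z hz
    exact mem_range.2 (mem_filter.1 hz).2
  · intro z _ z' _ hzz
    exact ZMod.val_injective _ hzz
  · intro k hk
    have hk' := mem_range.1 hk
    have : (k : ZMod (2 * h)).val = k := ZMod.val_natCast_of_lt (by omega)
    exact ⟨k, mem_filter.2 ⟨mem_univ _, by rw [this]; exact hk'⟩, this⟩

/-- The numbers of covered vertices when the average is an odd integer. -/
theorem half_half (hh : 0 < h) (a : ZMod (2 * h) → ℕ) (h2 : ∀ i, 2 ∣ a i)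
    (hd : ∀ i j, a i ≤ a j + 2) (m : ℕ) (hs : ∑ i, a i = 2 * h * (2 * m + 1)) :
    ∃ φ : Perm (ZMod (2 * h)), ∀ z, a (φ z) + (if z.val < h then 2 else 0) = 2 * m + 2 := by
  classical
  -- not all equal
  obtain ⟨i, j, hij⟩ : ∃ i j, a i < a j := by
    by_contra hne
    push Not at hne
    have h3 : ∀ k, a k = a 0 := fun k => le_antisymm (hne 0 k) (hne k 0)
    simp_rw [h3] at hs
    rw [sum_const, card_univ, ZMod.card, smul_eq_mul] at hs
    have h4 := Nat.eq_of_mul_eq_mul_left (by omega) hs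
    have := h2 0
    omega
  have hij' : a j = a i + 2 := by
    have := h2 i
    have := h2 j
    have := hd j i
    omega
  have h3 : ∀ k, a i ≤ a k := fun k => by
    have := hd j k
    omega
  have h4 : ∀ k, a k ≤ a i + 2 := fun k => hd k i
  have h5 : ∑ k : ZMod (2 * h), a i < ∑ k, a k :=
    sum_lt_sum (fun k _ => h3 k) ⟨j, mem_univ _, hij⟩
  have h6 : ∑ k, a k < ∑ k : ZMod (2 * h), (a i + 2) :=
    sum_lt_sum (fun k _ => h4 k) ⟨i, mem_univ _, by omega⟩
  rw [sum_const, card_univ, smul_eq_mul, hs, ZMod.card] at h5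
  rw [sum_const, card_univ, smul_eq_mul, hs, ZMod.card] at h6
  have h7 := lt_of_mul_lt_mul_left h5 (Nat.zero_le _)
  have h8 := lt_of_mul_lt_mul_left h6 (Nat.zero_le _)
  have h9 : a i = 2 * m := by
    have := h2 i
    omega
  have h10 : ∀ k, a k = 2 * m + 2 * (if a k = 2 * m then 0 else 1) := by
    intro k
    have := h2 k
    have := h3 k
    have := h4 k
    split_ifs <;> omega
  have h11 : (univ.filter (fun k => a k = 2 * m)).card = h := by
    have e1 : ∑ k, a k = ∑ k, (2 * m + 2 * (if a k = 2 * m then 0 else 1)) :=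
      sum_congr rfl (fun k _ => h10 k)
    have e2 : ∑ k : ZMod (2 * h), (if a k = 2 * m then 0 else 1) =
        (univ.filter (fun k => ¬ a k = 2 * m)).card := by
      rw [card_filter]
      refine sum_congr rfl (fun k _ => ?_)
      split_ifs <;> rfl
    have e3 : (univ.filter (fun k => a k = 2 * m)).card +
        (univ.filter (fun k => ¬ a k = 2 * m)).card = 2 * h := by
      rw [card_filter_add_card_filter_not, card_univ, ZMod.card]
    have e5 : ∑ k : ZMod (2 * h), 2 * (if a k = 2 * m then 0 else 1) =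
        2 * ∑ k : ZMod (2 * h), (if a k = 2 * m then 0 else 1) := (mul_sum _ _ _).symm
    rw [sum_add_distrib, e5, e2, sum_const, card_univ, ZMod.card, smul_eq_mul, hs] at e1
    have e4 : 2 * h * (2 * m + 1) = 2 * h * (2 * m) + 2 * h := by ring
    omega
  have h12 : Fintype.card {z : ZMod (2 * h) // z.val < h} = Fintype.card {k // a k = 2 * m} := by
    rw [Fintype.card_subtype, Fintype.card_subtype, h11, card_val_lt hh]
  let e := Fintype.equivOfCardEq h12
  refine ⟨e.extendSubtype, fun z => ?_⟩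
  by_cases hz : z.val < h
  · rw [if_pos hz, e.extendSubtype_mem z hz]
  · rw [if_neg hz]
    have h13 := e.extendSubtype_not_mem z hz
    have := h10 (e.extendSubtype z)
    rw [if_neg h13] at this
    omega

theorem card_support_gg (hh : 0 < h) (z : ZMod (2 * h)) :
    (gg h z).support.card = if z.val < h then 2 else 0 := by
  unfold gg
  split_ifs with h1
  · rw [Perm.card_support_swap]
    intro h1
    exact Hf_ne hh (left_eq_add.1 h1)
  · rw [Perm.support_one, card_empty]

omit [NeZero (2 * h)] in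
theorem gg_sq (z : ZMod (2 * h)) : gg h z ^ 2 = 1 := by
  unfold gg
  split_ifs
  · rw [pow_two, swap_mul_self]
  · rw [one_pow]

theorem support_gg_subset (hC : Cond h t₁) (z : ZMod (2 * h)) :
    (gg h z).support ⊆ univ.filter (fun y => y - z ∈ TT h t₁) := by
  intro x hx
  rw [Perm.mem_support] at hx
  have := (gg_iff (by have := hC.hh; omega) z x (gg h z x)).1 ⟨rfl, fun h => hx h.symm⟩
  rw [mem_filter]
  refine ⟨mem_univ _, ?_⟩
  rcases this.2 with h1 | h1
  · rw [h1.1, add_sub_cancel_left]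
    exact one_mem hC
  · rw [h1.1, show z + 1 + Hf h - z = 1 + Hf h by ring]
    exact one_add_Hf_mem hC

theorem support_sumCongr {V W : Type} [Fintype V] [DecidableEq V] [Fintype W] [DecidableEq W]
    (f : Perm V) (g : Perm W) : Perm.support (Equiv.sumCongr f g : Perm (V ⊕ W)) =
      f.support.disjSum g.support := by
  ext (x | x)
  · simp
  · simp

/-- The case of more than `t = 2 h` but fewer than `2 t` vertices. -/
theorem HF.star {VR AR : Type} [Fintype VR] [DecidableEq VR] [DecidableEq AR] (πR : VR → AR)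
    (hC : Cond h t₁) (hR : Fintype.card VR ≤ 2 * h) (m : ℕ)
    (hm : ∑ u : VR, (univ.filter (fun v => πR u ≠ πR v)).card = 2 * h * (2 * m + 1)) :
    HF (Sum.map πR (ZMod.castHom hC.dvd (ZMod t₁))) (ZMod (2 * h)) := by
  classical
  have hh := hC.hh
  let G : SimpleGraph VR := SimpleGraph.comap πR ⊤
  have hG : ∀ u v, G.Adj u v ↔ πR u ≠ πR v := fun u v => by
    simp [G]
  obtain ⟨c₀, f₀, hc₀, hf1₀, hf2₀, hf3, hf4⟩ := exists_matchings G (2 * h) hR
  have hdeg : ∑ u, G.degree u = 2 * h * (2 * m + 1) := by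
    rw [← hm]
    refine sum_congr rfl (fun u _ => ?_)
    rw [← SimpleGraph.card_neighborFinset_eq_degree]
    congr 1
    ext v
    rw [SimpleGraph.mem_neighborFinset, mem_filter, hG]
    simp
  obtain ⟨φ, hφ⟩ := half_half (by omega) (fun i => (f₀ i).support.card)
    (fun i => Perm.two_dvd_card_support (hf1₀ i)) hf3 m (by rw [hf4, hdeg])
  -- permuted colours
  obtain ⟨c, f, hc, hf1, hf2, hf3⟩ : ∃ (c : VR → VR → ZMod (2 * h)) (f : ZMod (2 * h) → Perm VR),
      (∀ u v, c u v = c v u) ∧ (∀ i, f i ^ 2 = 1) ∧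
      (∀ i u v, (πR u ≠ πR v ∧ c u v = i) ↔ (f i u = v ∧ u ≠ v)) ∧
      ∀ i, (f i).support.card + (if i.val < h then 2 else 0) = 2 * m + 2 := by
    refine ⟨fun u v => φ.symm (c₀ u v), fun i => f₀ (φ i), fun u v => congrArg _ (hc₀ u v),
      fun i => hf1₀ _, fun i u v => ?_, hφ⟩
    rw [← hf2₀, hG, Equiv.symm_apply_eq]
  let C : VR ⊕ ZMod (2 * h) → VR ⊕ ZMod (2 * h) → ZMod (2 * h) := fun u v => match u, v with
    | .inl u, .inl v => c u v
    | .inr x, .inr y => cc h t₁ x y
    | .inl _, .inr y => y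
    | .inr x, .inl _ => x
  let F : ZMod (2 * h) → Perm (VR ⊕ ZMod (2 * h)) := fun z => Equiv.sumCongr (f z) (gg h z)
  let S : ZMod (2 * h) → Finset (VR ⊕ ZMod (2 * h)) := fun z =>
    univ.disjSum (univ.filter (fun y => y - z ∈ TT h t₁))
  have key : ∀ z u v, (Sum.map πR (ZMod.castHom hC.dvd (ZMod t₁)) u ≠
      Sum.map πR (ZMod.castHom hC.dvd (ZMod t₁)) v ∧ C u v = z) ↔
      ((u = Sum.inr z ∧ v ∈ S z) ∨ (v = Sum.inr z ∧ u ∈ S z) ∨ (F z u = v ∧ u ≠ v)) := by
    rintro z (u | x) (v | y)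
    · simpa [C, F, S] using hf2 z u v
    · simp [C, F, S]
    · simp [C, F, S]
    · simpa [C, F, S] using cc_iff hC z x y
  refine ⟨C, ?_, ?_⟩
  · rintro (u | x) (v | y)
    · exact hc u v
    · rfl
    · rfl
    · exact cc_symm hC x y
  · intro i j
    have hz : ∀ z, (Sum.inr z : VR ⊕ ZMod (2 * h)) ∉ S z := by
      intro z
      simp only [S, inr_mem_disjSum, mem_filter, mem_univ, true_and, sub_self, mem_TT,
        ZMod.val_zero]
      omega
    have hS : ∀ z, (S z).card = Fintype.card VR + (TT h t₁).card := by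
      intro z
      simp only [S]
      rw [card_disjSum, card_filter_sub, card_univ]
    have hF : ∀ z, F z ^ 2 = 1 := by
      intro z
      have e1 := hf1 z
      have e2 := gg_sq z
      rw [pow_two] at e1 e2 ⊢
      ext (u | x)
      · have := congrArg (fun g => g u) e1
        simpa [F] using this
      · have := congrArg (fun g => g x) e2
        simpa [F] using this
    have hFS : ∀ z, (F z).support ⊆ S z := by
      intro z
      simp only [F, S]
      rw [support_sumCongr]
      exact disjSum_mono (subset_univ _) (support_gg_subset hC z)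
    have hFc : ∀ z, (F z).support.card = 2 * m + 2 := by
      intro z
      simp only [F]
      rw [support_sumCongr, card_disjSum, card_support_gg (by omega), hf3]
    obtain ⟨σ, h1, h2, h3⟩ := exists_conj_star (hz i) (hz j) (by rw [hS, hS]) (hF i) (hF j)
      (hFS i) (hFS j) (by rw [hFc, hFc])
    refine ⟨σ, fun u v => ?_⟩
    rw [key, key, ← h1, σ.apply_eq_iff_eq, σ.apply_eq_iff_eq, ← h2, ← h2, ← h3,
      σ.apply_eq_iff_eq, Ne, Ne, σ.apply_eq_iff_eq]

end cyc

end Pool.Agent.W2helper95.EQ
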